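import Pool.Agent.Y269.EL.Stm2
import Pool.Agent.Y269.EL.Base

/-!
# The row obstruction passes to the next stage (job EL-ROWS)
-/

set_option autoImplicit false

namespace Pool.Agent.Y261.EL.Rw

open Pool.Agent.Y269.EL
open Filter Topology Set
open scoped InnerProductSpace

/-! ### coordinates -/

lemma unp_cS (m : ℕ) : (Nat.unpair (cS m)).1 = m := by simp [cS]

lemma unp_c1 (m k : ℕ) : (Nat.unpair (c1 m k)).1 = m := by simp [c1]

lemma unp_c2 (m k : ℕ) : (Nat.unpair (c2 m k)).1 = m := by simp [c2]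

lemma cS_inj {m m' : ℕ} (h : cS m = cS m') : m = m' := (Nat.pair_eq_pair.1 h).1

lemma c1_inj {m k m' k' : ℕ} (h : c1 m k = c1 m' k') : m = m' ∧ k = k' := by
  have := Nat.pair_eq_pair.1 h
  omega

lemma c2_inj {m k m' k' : ℕ} (h : c2 m k = c2 m' k') : m = m' ∧ k = k' := by
  have := Nat.pair_eq_pair.1 h
  omega

lemma c1_ne_cS (m k m' : ℕ) : c1 m k ≠ cS m' := fun h => by
  have := Nat.pair_eq_pair.1 h
  omega

lemma c2_ne_cS (m k m' : ℕ) : c2 m k ≠ cS m' := fun h => by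
  have := Nat.pair_eq_pair.1 h
  omega

lemma c1_ne_c2 (m k m' k' : ℕ) : c1 m k ≠ c2 m' k' := fun h => by
  have := Nat.pair_eq_pair.1 h
  omega

/-! ### signs -/

lemma sg_cases (J : Finset ℕ) (k : ℕ) : sg J k = 1 ∨ sg J k = -1 := by
  unfold sg; split_ifs <;> simp

lemma sg_union {S T : Finset ℕ} (h : Disjoint S T) (k : ℕ) : sg (S ∪ T) k = sg S k * sg T k := by
  unfold sg
  by_cases h1 : k ∈ S
  · have h2 : k ∉ T := fun h2 => (Finset.disjoint_left.1 h) h1 h2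
    simp [h1, h2]
  · by_cases h2 : k ∈ T <;> simp [h1, h2]

/-- the parity set of the twisting unitary -/
def ES (m : ℕ) : Finset ℕ := if Even m then ∅ else {cS m}

lemma mem_ES {m n : ℕ} : n ∈ ES m ↔ ¬ Even m ∧ n = cS m := by
  unfold ES; split_ifs with h <;> simp [h]

/-! ### families of rows -/

noncomputable section

variable {H : Type} [NormedAddCommGroup H] [InnerProductSpace ℂ H] [CompleteSpace H]

/-- `Lead` for the family of one block -/
structure LeadB (G' : Geo H) (m : ℕ) {I : Type} (l : I → ℕ) (J : I → Finset ℕ) : Prop where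
  mem : ∀ r, l r ∈ J r
  sub : ∀ r, J r ⊆ G'.an (l r)
  count : ∀ k, {r | l r = k}.encard ≤ G'.cap k
  unp : ∀ r, (Nat.unpair (l r)).1 = m

/-- combination of the families of the blocks -/
lemma comb {V Ω : Type*} (G' : Geo H) (Q : Finset ℕ → V → Prop) (orth : V → Ω → Prop)
    (P : ℕ → Ω → Prop)
    (h : ∀ m, ∃ (I : Type) (l : I → ℕ) (J : I → Finset ℕ) (ρ : I → V), LeadB G' m l J ∧
      (∀ r, Q (J r) (ρ r)) ∧ ∀ ω, (∀ r, orth (ρ r) ω) → P m ω) :
    ∃ (I : Type) (l : I → ℕ) (J : I → Finset ℕ) (ρ : I → V), Lead G' l J ∧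
      (∀ r, Q (J r) (ρ r)) ∧ ∀ ω, (∀ r, orth (ρ r) ω) → ∀ m, P m ω := by
  choose I l J ρ h1 h2 h3 using h
  refine ⟨Σ m, I m, fun r => l r.1 r.2, fun r => J r.1 r.2, fun r => ρ r.1 r.2, ⟨?_, ?_, ?_⟩, ?_, ?_⟩
  · exact fun r => (h1 r.1).mem r.2
  · exact fun r => (h1 r.1).sub r.2
  · intro k
    have hsub : {r : Σ m, I m | l r.1 r.2 = k} ⊆
        Sigma.mk (Nat.unpair k).1 '' {r | l (Nat.unpair k).1 r = k} := by
      rintro ⟨m, r⟩ hr
      have hr' : l m r = k := hr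
      have hm : m = (Nat.unpair k).1 := by rw [← hr', (h1 m).unp r]
      subst hm
      exact ⟨r, hr', rfl⟩
    exact ((Set.encard_le_encard hsub).trans (Set.encard_image_le _ _)).trans
      ((h1 (Nat.unpair k).1).count k)
  · exact fun r => h2 r.1 r.2
  · exact fun ω hω m => h3 m ω fun r => hω ⟨m, r⟩

/-! ### the half of a block -/

/-- leading coordinates of the rows of a block -/
def lH (D : Blk H) (c : ℕ → ℕ → ℕ) (m : ℕ) {I : Type} (l : I → ℕ) (r : I) : ℕ := by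
  classical exact if l r ∈ D.L m then cS m else c m (l r)

/-- parity sets of the rows of a block -/
def JH (D : Blk H) (c : ℕ → ℕ → ℕ) (m : ℕ) {I : Type} (J : I → Finset ℕ) (r : I) : Finset ℕ :=
  ES m ∪ (J r \ D.L m).image (c m)

variable {A : Amb H} {G : Geo H} {D : Blk H}

/-- the properties of the coordinate maps `c1` and `c2` -/
structure Cc (A : Amb H) (G : Geo H) (D : Blk H) (c : ℕ → ℕ → ℕ) : Prop where
  inj : ∀ m k m' k', c m k = c m' k' → m = m' ∧ k = k'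
  ne : ∀ m k m', c m k ≠ cS m'
  unp : ∀ m k, (Nat.unpair (c m k)).1 = m
  cap : ∀ m k, (G.next A D).cap (c m k) = G.cap k
  an : ∀ m k, (G.next A D).an (c m k) = insert (cS m) ((G.an k).image (c m))
  d : ∀ m k, (G.next A D).d (c m k) = G.d k

lemma cc1 : Cc A G D c1 where
  inj := fun _ _ _ _ h => c1_inj h
  ne := c1_ne_cS
  unp := unp_c1
  cap := fun m k => by simp only [Geo.next, rec3_c1]
  an := fun m k => by simp only [Geo.next, rec3_c1]
  d := fun m k => by simp only [Geo.next, rec3_c1]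

lemma cc2 : Cc A G D c2 where
  inj := fun _ _ _ _ h => c2_inj h
  ne := c2_ne_cS
  unp := unp_c2
  cap := fun m k => by simp only [Geo.next, rec3_c2]
  an := fun m k => by simp only [Geo.next, rec3_c2]
  d := fun m k => by simp only [Geo.next, rec3_c2]

lemma capS (m : ℕ) : (G.next A D).cap (cS m) = 2 * ∑ k ∈ D.L m, G.cap k := by
  simp only [Geo.next, rec3_cS]

lemma anS (m : ℕ) : (G.next A D).an (cS m) = {cS m} := by
  simp only [Geo.next, rec3_cS]

section half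

variable {c : ℕ → ℕ → ℕ} (hc : Cc A G D c) {I : Type} {l : I → ℕ} {J : I → Finset ℕ}

lemma lH_pos {m : ℕ} {r : I} (h : l r ∈ D.L m) : lH D c m l r = cS m := by
  unfold lH; exact if_pos h

lemma lH_neg {m : ℕ} {r : I} (h : l r ∉ D.L m) : lH D c m l r = c m (l r) := by
  unfold lH; exact if_neg h

lemma odd_of_mem (hD : D.OK A G) {m k : ℕ} (h : k ∈ D.L m) : ¬ Even m := fun he => by
  rw [(hD.even m he).1] at h
  simp at h

include hc

lemma half_mem (hD : D.OK A G) (hl : Lead G l J) (m : ℕ) (r : I) :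
    lH D c m l r ∈ JH D c m J r := by
  by_cases h : l r ∈ D.L m
  · rw [lH_pos h]
    exact Finset.mem_union_left _ (mem_ES.2 ⟨odd_of_mem hD h, rfl⟩)
  · rw [lH_neg h]
    exact Finset.mem_union_right _ (Finset.mem_image.2 ⟨l r, Finset.mem_sdiff.2 ⟨hl.mem r, h⟩, rfl⟩)

lemma half_sub (hD : D.OK A G) (hl : Lead G l J) (m : ℕ) (r : I) :
    JH D c m J r ⊆ (G.next A D).an (lH D c m l r) := by
  intro n hn
  rcases Finset.mem_union.1 hn with h1 | h1
  · obtain ⟨_, rfl⟩ := mem_ES.1 h1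
    by_cases h : l r ∈ D.L m
    · rw [lH_pos h, anS]; simp
    · rw [lH_neg h, hc.an]; simp
  · obtain ⟨k, hk, rfl⟩ := Finset.mem_image.1 h1
    obtain ⟨hk1, hk2⟩ := Finset.mem_sdiff.1 hk
    have hka := hl.sub r hk1
    have h : l r ∉ D.L m := fun h => hk2 (hD.closed m _ h hka)
    rw [lH_neg h, hc.an]
    exact Finset.mem_insert_of_mem (Finset.mem_image_of_mem _ hka)

lemma half_cnt_c (hl : Lead G l J) (m k : ℕ) : {r | lH D c m l r = c m k}.encard ≤ G.cap k := by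
  refine (Set.encard_le_encard fun r hr => ?_).trans (hl.count k)
  have hr' : lH D c m l r = c m k := hr
  by_cases h : l r ∈ D.L m
  · rw [lH_pos h] at hr'
    exact absurd hr'.symm (hc.ne _ _ _)
  · rw [lH_neg h] at hr'
    exact (hc.inj _ _ _ _ hr').2

lemma half_cnt_S (hl : Lead G l J) (m : ℕ) :
    {r | lH D c m l r = cS m}.encard ≤ (∑ k ∈ D.L m, G.cap k : ℕ) := by
  have h1 : {r | lH D c m l r = cS m} ⊆ {r | l r ∈ D.L m} := by
    intro r hr
    have hr' : lH D c m l r = cS m := hr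
    by_contra h
    rw [lH_neg h] at hr'
    exact hc.ne _ _ _ hr'
  have h2 : ∀ S : Finset ℕ, {r | l r ∈ S}.encard ≤ (∑ k ∈ S, G.cap k : ℕ) := by
    intro S
    induction S using Finset.induction_on with
    | empty => simp
    | insert a S ha ih =>
      have h3 : {r | l r ∈ insert a S} ⊆ {r | l r = a} ∪ {r | l r ∈ S} := by
        intro r hr
        rcases Finset.mem_insert.1 hr with h | h
        · exact Or.inl h
        · exact Or.inr h
      refine ((Set.encard_le_encard h3).trans (Set.encard_union_le _ _)).trans ?_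
      rw [Finset.sum_insert ha]
      push_cast
      exact add_le_add (hl.count a) (by simpa using ih)
  exact (Set.encard_le_encard h1).trans (h2 _)

lemma half_unp (m : ℕ) (r : I) : (Nat.unpair (lH D c m l r)).1 = m := by
  by_cases h : l r ∈ D.L m
  · rw [lH_pos h, unp_cS]
  · rw [lH_neg h, hc.unp]

lemma half_cnt_ne (m n : ℕ) (h1 : n ≠ cS m) (h2 : ∀ k, n ≠ c m k) :
    {r | lH D c m l r = n}.encard = 0 := by
  rw [Set.encard_eq_zero]
  ext r
  simp only [Set.mem_ofPred_eq, Set.mem_empty_iff_false, iff_false]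
  intro hr
  by_cases h : l r ∈ D.L m
  · rw [lH_pos h] at hr; exact h1 hr.symm
  · rw [lH_neg h] at hr; exact h2 _ hr.symm

lemma half_lead (hD : D.OK A G) (hl : Lead G l J) (m : ℕ) :
    LeadB (G.next A D) m (lH D c m l) (JH D c m J) where
  mem := half_mem hc hD hl m
  sub := half_sub hc hD hl m
  unp := half_unp hc m
  count := by
    intro n
    by_cases h1 : n = cS m
    · subst h1
      refine (half_cnt_S hc hl m).trans ?_
      rw [capS]
      norm_cast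
      omega
    · by_cases h2 : ∃ k, n = c m k
      · obtain ⟨k, rfl⟩ := h2
        rw [hc.cap]
        exact half_cnt_c hc hl m k
      · rw [half_cnt_ne hc m n h1 fun k hk => h2 ⟨k, hk⟩]
        exact zero_le

end half

lemma encard_sum_le {I1 I2 : Type} (f : I1 → ℕ) (g : I2 → ℕ) (n : ℕ) :
    {r | Sum.elim f g r = n}.encard ≤ {r | f r = n}.encard + {r | g r = n}.encard := by
  have h : {r | Sum.elim f g r = n} ⊆ Sum.inl '' {r | f r = n} ∪ Sum.inr '' {r | g r = n} := by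
    rintro (r | r) hr
    · exact Or.inl ⟨r, hr, rfl⟩
    · exact Or.inr ⟨r, hr, rfl⟩
  exact ((Set.encard_le_encard h).trans (Set.encard_union_le _ _)).trans
    (add_le_add (Set.encard_image_le _ _) (Set.encard_image_le _ _))

lemma both_lead (hD : D.OK A G) {I1 I2 : Type} {l1 : I1 → ℕ} {J1 : I1 → Finset ℕ}
    {l2 : I2 → ℕ} {J2 : I2 → Finset ℕ} (h1 : Lead G l1 J1) (h2 : Lead G l2 J2) (m : ℕ) :
    LeadB (G.next A D) m (Sum.elim (lH D c1 m l1) (lH D c2 m l2))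
      (Sum.elim (JH D c1 m J1) (JH D c2 m J2)) where
  mem := by
    rintro (r | r)
    · exact half_mem cc1 hD h1 m r
    · exact half_mem cc2 hD h2 m r
  sub := by
    rintro (r | r)
    · exact half_sub cc1 hD h1 m r
    · exact half_sub cc2 hD h2 m r
  unp := by
    rintro (r | r)
    · exact half_unp (A := A) (G := G) cc1 m r
    · exact half_unp (A := A) (G := G) cc2 m r
  count := by
    intro n
    refine (encard_sum_le _ _ n).trans ?_
    rcases rec3_cases n with ⟨m', rfl⟩ | ⟨m', k, rfl⟩ | ⟨m', k, rfl⟩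
    · by_cases hm : m' = m
      · subst hm
        refine (add_le_add (half_cnt_S (A := A) cc1 h1 m') (half_cnt_S (A := A) cc2 h2 m')).trans ?_
        rw [capS]
        norm_cast
        omega
      · rw [half_cnt_ne (A := A) (G := G) cc1 m _ (fun h => hm (cS_inj h))
            (fun k h => c1_ne_cS _ _ _ h.symm),
          half_cnt_ne (A := A) (G := G) cc2 m _ (fun h => hm (cS_inj h))
            (fun k h => c2_ne_cS _ _ _ h.symm)]
        simp
    · rw [half_cnt_ne (A := A) (G := G) cc2 m _ (c1_ne_cS _ _ _) (fun k' => c1_ne_c2 _ _ _ _),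
        add_zero]
      by_cases hm : m' = m
      · subst hm
        rw [cc1.cap]
        exact half_cnt_c (A := A) cc1 h1 m' k
      · rw [half_cnt_ne (A := A) (G := G) cc1 m _ (c1_ne_cS _ _ _)
          (fun k' h => hm (c1_inj h).1)]
        exact zero_le
    · rw [half_cnt_ne (A := A) (G := G) cc1 m _ (c2_ne_cS _ _ _)
        (fun k' h => c1_ne_c2 _ _ _ _ h.symm), zero_add]
      by_cases hm : m' = m
      · subst hm
        rw [cc2.cap]
        exact half_cnt_c (A := A) cc2 h2 m' k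
      · rw [half_cnt_ne (A := A) (G := G) cc2 m _ (c2_ne_cS _ _ _)
          (fun k' h => hm (c2_inj h).1)]
        exact zero_le

/-! ### points of the next stage -/

lemma Y1_mem (hD : D.OK A G) {w : Pt} (hw : w ∈ XX (G.next A D).d) (m : ℕ) :
    Y1 D m w ∈ XX G.d := by
  intro k
  unfold Y1
  split_ifs with h
  · exact hD.p1_mem m k
  · have := hw (c1 m k)
    rwa [(cc1 (A := A) (G := G) (D := D)).d] at this

lemma Y2_mem (hD : D.OK A G) {w : Pt} (hw : w ∈ XX (G.next A D).d) (m : ℕ) :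
    Y2 D m w ∈ XX G.d := by
  intro k
  unfold Y2
  split_ifs with h
  · exact hD.p2_mem m k
  · have := hw (c2 m k)
    rwa [(cc2 (A := A) (G := G) (D := D)).d] at this

lemma Y1_cont (D : Blk H) (m : ℕ) : Continuous (Y1 D m) := by
  refine continuous_pi fun k => ?_
  unfold Y1
  split_ifs
  · exact continuous_const
  · exact continuous_apply _

lemma Y2_cont (D : Blk H) (m : ℕ) : Continuous (Y2 D m) := by
  refine continuous_pi fun k => ?_
  unfold Y2
  split_ifs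
  · exact continuous_const
  · exact continuous_apply _

lemma Y1_flp_ne (D : Blk H) {m n : ℕ} (h : ∀ k, n ≠ c1 m k) (w : Pt) :
    Y1 D m (flp n w) = Y1 D m w := by
  funext k
  unfold Y1
  split_ifs
  · rfl
  · unfold flp
    rw [Function.update_of_ne (fun h' => h k h'.symm)]

lemma Y2_flp_ne (D : Blk H) {m n : ℕ} (h : ∀ k, n ≠ c2 m k) (w : Pt) :
    Y2 D m (flp n w) = Y2 D m w := by
  funext k
  unfold Y2
  split_ifs
  · rfl
  · unfold flp
    rw [Function.update_of_ne (fun h' => h k h'.symm)]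

lemma Y1_flp_mem (D : Blk H) {m k : ℕ} (h : k ∈ D.L m) (w : Pt) :
    Y1 D m (flp (c1 m k) w) = Y1 D m w := by
  funext j
  unfold Y1
  split_ifs with hj
  · rfl
  · unfold flp
    rw [Function.update_of_ne]
    intro h'
    rw [(c1_inj h').2] at hj
    exact hj h

lemma Y2_flp_mem (D : Blk H) {m k : ℕ} (h : k ∈ D.L m) (w : Pt) :
    Y2 D m (flp (c2 m k) w) = Y2 D m w := by
  funext j
  unfold Y2
  split_ifs with hj
  · rfl
  · unfold flp
    rw [Function.update_of_ne]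
    intro h'
    rw [(c2_inj h').2] at hj
    exact hj h

lemma Y1_flp_not (D : Blk H) {m k : ℕ} (h : k ∉ D.L m) (w : Pt) :
    Y1 D m (flp (c1 m k) w) = flp k (Y1 D m w) := by
  funext j
  by_cases hjk : j = k
  · subst hjk
    simp [Y1, flp, h]
  · have h1 : c1 m j ≠ c1 m k := fun h' => hjk (c1_inj h').2
    simp [Y1, flp, hjk, h1]

lemma Y2_flp_not (D : Blk H) {m k : ℕ} (h : k ∉ D.L m) (w : Pt) :
    Y2 D m (flp (c2 m k) w) = flp k (Y2 D m w) := by
  funext j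
  by_cases hjk : j = k
  · subst hjk
    simp [Y2, flp, h]
  · have h1 : c2 m j ≠ c2 m k := fun h' => hjk (c2_inj h').2
    simp [Y2, flp, hjk, h1]

/-- parity of a function of the first point of the block -/
lemma par_Y1 (hD : D.OK A G) {E : Type} [AddCommGroup E] [Module ℂ E] {J : Finset ℕ} {f : Pt → E}
    (hf : ∀ u ∈ XX G.d, ∀ k, f (flp k u) = sg J k • f u) (m : ℕ) {w : Pt}
    (hw : w ∈ XX (G.next A D).d) (n : ℕ) :
    f (Y1 D m (flp n w)) = sg ((J \ D.L m).image (c1 m)) n • f (Y1 D m w) := by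
  by_cases h : ∃ k, n = c1 m k
  · obtain ⟨k, rfl⟩ := h
    by_cases hk : k ∈ D.L m
    · rw [Y1_flp_mem D hk]
      have : c1 m k ∉ (J \ D.L m).image (c1 m) := by
        intro h'
        obtain ⟨j, hj, hj'⟩ := Finset.mem_image.1 h'
        rw [(c1_inj hj').2] at hj
        exact (Finset.mem_sdiff.1 hj).2 hk
      rw [sg, if_neg this, one_smul]
    · rw [Y1_flp_not D hk, hf _ (Y1_mem hD hw m)]
      congr 1
      unfold sg
      have : c1 m k ∈ (J \ D.L m).image (c1 m) ↔ k ∈ J := by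
        constructor
        · intro h'
          obtain ⟨j, hj, hj'⟩ := Finset.mem_image.1 h'
          rw [(c1_inj hj').2] at hj
          exact (Finset.mem_sdiff.1 hj).1
        · intro h'
          exact Finset.mem_image_of_mem _ (Finset.mem_sdiff.2 ⟨h', hk⟩)
      simp only [this]
  · rw [Y1_flp_ne D fun k hk => h ⟨k, hk⟩]
    have : n ∉ (J \ D.L m).image (c1 m) := by
      intro h'
      obtain ⟨j, _, hj'⟩ := Finset.mem_image.1 h'
      exact h ⟨j, hj'.symm⟩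
    rw [sg, if_neg this, one_smul]

lemma par_Y2 (hD : D.OK A G) {E : Type} [AddCommGroup E] [Module ℂ E] {J : Finset ℕ} {f : Pt → E}
    (hf : ∀ u ∈ XX G.d, ∀ k, f (flp k u) = sg J k • f u) (m : ℕ) {w : Pt}
    (hw : w ∈ XX (G.next A D).d) (n : ℕ) :
    f (Y2 D m (flp n w)) = sg ((J \ D.L m).image (c2 m)) n • f (Y2 D m w) := by
  by_cases h : ∃ k, n = c2 m k
  · obtain ⟨k, rfl⟩ := h
    by_cases hk : k ∈ D.L m
    · rw [Y2_flp_mem D hk]
      have : c2 m k ∉ (J \ D.L m).image (c2 m) := by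
        intro h'
        obtain ⟨j, hj, hj'⟩ := Finset.mem_image.1 h'
        rw [(c2_inj hj').2] at hj
        exact (Finset.mem_sdiff.1 hj).2 hk
      rw [sg, if_neg this, one_smul]
    · rw [Y2_flp_not D hk, hf _ (Y2_mem hD hw m)]
      congr 1
      unfold sg
      have : c2 m k ∈ (J \ D.L m).image (c2 m) ↔ k ∈ J := by
        constructor
        · intro h'
          obtain ⟨j, hj, hj'⟩ := Finset.mem_image.1 h'
          rw [(c2_inj hj').2] at hj
          exact (Finset.mem_sdiff.1 hj).1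
        · intro h'
          exact Finset.mem_image_of_mem _ (Finset.mem_sdiff.2 ⟨h', hk⟩)
      simp only [this]
  · rw [Y2_flp_ne D fun k hk => h ⟨k, hk⟩]
    have : n ∉ (J \ D.L m).image (c2 m) := by
      intro h'
      obtain ⟨j, _, hj'⟩ := Finset.mem_image.1 h'
      exact h ⟨j, hj'.symm⟩
    rw [sg, if_neg this, one_smul]

/-- invariant functions of the first point -/
lemma inv_Y1 (hD : D.OK A G) {E : Type} {f : Pt → E}
    (hf : ∀ u ∈ XX G.d, ∀ k, f (flp k u) = f u) (m : ℕ) {w : Pt}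
    (hw : w ∈ XX (G.next A D).d) (n : ℕ) : f (Y1 D m (flp n w)) = f (Y1 D m w) := by
  by_cases h : ∃ k, n = c1 m k
  · obtain ⟨k, rfl⟩ := h
    by_cases hk : k ∈ D.L m
    · rw [Y1_flp_mem D hk]
    · rw [Y1_flp_not D hk, hf _ (Y1_mem hD hw m)]
  · rw [Y1_flp_ne D fun k hk => h ⟨k, hk⟩]

lemma inv_Y2 (hD : D.OK A G) {E : Type} {f : Pt → E}
    (hf : ∀ u ∈ XX G.d, ∀ k, f (flp k u) = f u) (m : ℕ) {w : Pt}
    (hw : w ∈ XX (G.next A D).d) (n : ℕ) : f (Y2 D m (flp n w)) = f (Y2 D m w) := by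
  by_cases h : ∃ k, n = c2 m k
  · obtain ⟨k, rfl⟩ := h
    by_cases hk : k ∈ D.L m
    · rw [Y2_flp_mem D hk]
    · rw [Y2_flp_not D hk, hf _ (Y2_mem hD hw m)]
  · rw [Y2_flp_ne D fun k hk => h ⟨k, hk⟩]

/-! ### the twisting unitary -/

lemma hh_even {m : ℕ} (h : Even m) (w : Pt) : hh A G D m w = 1 := if_pos h

lemma Ub_neg (n : ℕ) (s : ℕ → ℝ) : Ub A n (-s) = -Ub A n s := by
  simp [Ub, Finset.sum_neg_distrib]

lemma hh_flp (m n : ℕ) (w : Pt) : hh A G D m (flp n w) = sg (ES m) n • hh A G D m w := by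
  unfold hh sg
  by_cases hm : Even m
  · have : n ∉ ES m := fun h => (mem_ES.1 h).1 hm
    simp [hm, this]
  · by_cases hn : n = cS m
    · subst hn
      have : cS m ∈ ES m := mem_ES.2 ⟨hm, rfl⟩
      simp only [if_neg hm, if_pos this]
      unfold flp
      rw [Function.update_self, Ub_neg, neg_one_smul]
    · have : n ∉ ES m := fun h => hn (mem_ES.1 h).2
      simp only [if_neg hm, if_neg this, one_smul]
      unfold flp
      rw [Function.update_of_ne (fun h => hn h.symm)]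

lemma hh_mem (hI : IseStmt H) {w : Pt} (hw : w ∈ XX (G.next A D).d) (m : ℕ) :
    hh A G D m w ∈ GM A := by
  unfold hh
  split_ifs
  · exact (GM A).one_mem
  · exact (hI.ub A _ _ (hw (cS m))).1

lemma hh_cont (hI : IseStmt H) (m : ℕ) : Continuous (hh A G D m) := by
  unfold hh
  split_ifs
  · exact continuous_const
  · exact (hI.ubc A _).comp (continuous_apply _)

lemma disj (c : ℕ → ℕ → ℕ) (hc : Cc A G D c) (m : ℕ) (S : Finset ℕ) :
    Disjoint (ES m) (S.image (c m)) := by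
  rw [Finset.disjoint_left]
  intro n h1 h2
  obtain ⟨_, rfl⟩ := mem_ES.1 h1
  obtain ⟨k, _, hk⟩ := Finset.mem_image.1 h2
  exact hc.ne _ _ _ hk

lemma sg_JH (c : ℕ → ℕ → ℕ) (hc : Cc A G D c) (m : ℕ) {I : Type} (J : I → Finset ℕ) (r : I) (n : ℕ) :
    sg (JH D c m J r) n = sg (ES m) n * sg ((J r \ D.L m).image (c m)) n :=
  sg_union (disj c hc m _) n

/-! ### one block as a function of one point -/

/-- properties of a row which depends on one point only -/
def Q0 (d : ℕ → ℕ) (J : Finset ℕ) (ρ : Pt → H) : Prop :=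
  ContinuousOn ρ (XX d) ∧ ∀ w ∈ XX d, ∀ k, ρ (flp k w) = sg J k • ρ w

lemma block (hI : IseStmt H) (hD : D.OK A G) {F : ℝ → Pt → Pt → (H →L[ℂ] H) → (H →L[ℂ] H)}
    (hF : Good A G F) (m : ℕ) {τ : ℝ} (hτ : τ ∈ Icc (0 : ℝ) 1) :
    ∃ (I : Type) (l : I → ℕ) (J : I → Finset ℕ) (ρ : I → Pt → H), LeadB (G.next A D) m l J ∧
      (∀ r, Q0 (G.next A D).d (J r) (ρ r)) ∧
      ∀ w ∈ XX (G.next A D).d, ∀ ξ : H, (∀ r, ⟪ρ r w, ξ⟫_ℂ = 0) → blkt A G D m F τ w ξ = 0 := by
  obtain ⟨I1, I2, l1, J1, ρ1, l2, J2, ρ2, h1, h2, hker⟩ := hF.all τ hτ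
  have hg : D.g m ∈ GM A := hD.g_mem m
  have hmap : Continuous fun w : Pt => (Y1 D m w, Y2 D m w, D.g m) :=
    (Y1_cont D m).prodMk ((Y2_cont D m).prodMk continuous_const)
  have hmaps : MapsTo (fun w : Pt => (Y1 D m w, Y2 D m w, D.g m)) (XX (G.next A D).d)
      (XX G.d ×ˢ XX G.d ×ˢ (GM A : Set (H →L[ℂ] H))) :=
    fun w hw => ⟨Y1_mem hD hw m, Y2_mem hD hw m, hg⟩
  refine ⟨I1 ⊕ I2, Sum.elim (lH D c1 m l1) (lH D c2 m l2),
    Sum.elim (JH D c1 m J1) (JH D c2 m J2),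
    Sum.elim (fun r w => hh A G D m w (ρ1 r (Y1 D m w) (Y2 D m w) (D.g m)))
      (fun r w => hh A G D m w (ρ2 r (Y1 D m w) (Y2 D m w) (D.g m))),
    both_lead hD h1.lead h2.lead m, ?_, ?_⟩
  · rintro (r | r)
    · refine ⟨?_, fun w hw k => ?_⟩
      · exact ((hh_cont hI m).continuousOn).clm_apply
          ((h1.cont r).comp hmap.continuousOn hmaps)
      · simp only [Sum.elim_inl]
        rw [sg_JH (A := A) (G := G) c1 cc1, hh_flp,
          par_Y1 hD (f := fun u => ρ1 r u (Y2 D m (flp k w)) (D.g m))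
            (fun u hu j => h1.par1 r u hu _ (Y2_mem hD (hI.flp _ w hw k) m) _ hg j) m hw k,
          inv_Y2 hD (f := fun v => ρ1 r (Y1 D m w) v (D.g m))
            (fun v hv j => h1.par2 r _ (Y1_mem hD hw m) v hv _ hg j) m hw k]
        rw [smul_apply, map_smul, smul_smul]
    · refine ⟨?_, fun w hw k => ?_⟩
      · exact ((hh_cont hI m).continuousOn).clm_apply
          ((h2.cont r).comp hmap.continuousOn hmaps)
      · simp only [Sum.elim_inr]
        rw [sg_JH (A := A) (G := G) c2 cc2, hh_flp,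
          inv_Y1 hD (f := fun u => ρ2 r u (Y2 D m (flp k w)) (D.g m))
            (fun u hu j => h2.par1 r u hu _ (Y2_mem hD (hI.flp _ w hw k) m) _ hg j) m hw k,
          par_Y2 hD (f := fun v => ρ2 r (Y1 D m w) v (D.g m))
            (fun v hv j => h2.par2 r _ (Y1_mem hD hw m) v hv _ hg j) m hw k]
        rw [smul_apply, map_smul, smul_smul]
  · intro w hw ξ hξ
    have h3 : F τ (Y1 D m w) (Y2 D m w) (D.g m) ((star (hh A G D m w)) ξ) = 0 := by
      refine hker _ (Y1_mem hD hw m) _ (Y2_mem hD hw m) _ hg _ (fun r => ?_) (fun r => ?_)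
      · rw [inner_star']
        exact hξ (Sum.inl r)
      · rw [inner_star']
        exact hξ (Sum.inr r)
    unfold blkt
    rw [mul_ap, mul_ap, h3, map_zero]

/-! ### the kernel of a block diagonal operator -/

lemma bs_zero (T : ℕ → (H →L[ℂ] H)) (ξ : H) (h : ∀ m, T m ((star (A.R m)) ξ) = 0) :
    bs A T ξ = 0 := by
  classical
  unfold bs asm
  split_ifs with hex
  · have hs := hex.choose_spec
    refine ext_Rv A fun m => ?_
    rw [map_zero, ← mul_ap, hs m, mul_ap]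
    exact h m
  · rfl

/-! ### rows of type 1 and 2 -/

/-- properties of a row of type 1 -/
def Q1 (A : Amb H) (d : ℕ → ℕ) (J : Finset ℕ) (ρ : Pt → Pt → (H →L[ℂ] H) → H) : Prop :=
  ContinuousOn (fun z : Pt × Pt × (H →L[ℂ] H) => ρ z.1 z.2.1 z.2.2)
    (XX d ×ˢ XX d ×ˢ (GM A : Set (H →L[ℂ] H))) ∧
  (∀ u ∈ XX d, ∀ v ∈ XX d, ∀ g ∈ GM A, ∀ k, ρ (flp k u) v g = sg J k • ρ u v g) ∧
  (∀ u ∈ XX d, ∀ v ∈ XX d, ∀ g ∈ GM A, ∀ k, ρ u (flp k v) g = ρ u v g) ∧
  (∀ u ∈ XX d, ∀ v ∈ XX d, ∀ g ∈ GM A, ρ u v (-g) = ρ u v g)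

/-- properties of a row of type 2 -/
def Q2 (A : Amb H) (d : ℕ → ℕ) (J : Finset ℕ) (ρ : Pt → Pt → (H →L[ℂ] H) → H) : Prop :=
  ContinuousOn (fun z : Pt × Pt × (H →L[ℂ] H) => ρ z.1 z.2.1 z.2.2)
    (XX d ×ˢ XX d ×ˢ (GM A : Set (H →L[ℂ] H))) ∧
  (∀ u ∈ XX d, ∀ v ∈ XX d, ∀ g ∈ GM A, ∀ k, ρ (flp k u) v g = ρ u v g) ∧
  (∀ u ∈ XX d, ∀ v ∈ XX d, ∀ g ∈ GM A, ∀ k, ρ u (flp k v) g = sg J k • ρ u v g) ∧
  (∀ u ∈ XX d, ∀ v ∈ XX d, ∀ g ∈ GM A, ρ u v (-g) = -ρ u v g)

lemma Q0_map {d : ℕ → ℕ} {J : Finset ℕ} {ρ : Pt → H} (T : H →L[ℂ] H) (h : Q0 d J ρ) :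
    Q0 d J (fun w => T (ρ w)) :=
  ⟨T.continuous.comp_continuousOn h.1, fun w hw k => by
    show T (ρ (flp k w)) = sg J k • T (ρ w)
    rw [h.2 w hw k, map_smul]⟩

lemma Q1_of_Q0 {d : ℕ → ℕ} {J : Finset ℕ} {ρ : Pt → H} (h : Q0 d J ρ) :
    Q1 A d J (fun w _ _ => ρ w) :=
  ⟨h.1.comp continuousOn_fst (fun _ hz => hz.1), fun u hu _ _ _ _ k => h.2 u hu k,
    fun _ _ _ _ _ _ _ => rfl, fun _ _ _ _ _ _ => rfl⟩

lemma Q2_of_Q0 {d : ℕ → ℕ} {J : Finset ℕ} {ρ : Pt → H} (T : H →L[ℂ] H) (h : Q0 d J ρ) :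
    Q2 A d J (fun _ w g => T (g (ρ w))) := by
  refine ⟨?_, fun _ _ _ _ _ _ _ => rfl, fun u hu v hv g hg k => ?_, fun u hu v hv g hg => ?_⟩
  · refine T.continuous.comp_continuousOn ?_
    have h1 : ContinuousOn (fun z : Pt × Pt × (H →L[ℂ] H) => z.2.2)
        (XX d ×ˢ XX d ×ˢ (GM A : Set (H →L[ℂ] H))) :=
      (continuous_snd.comp continuous_snd).continuousOn
    have h2 : ContinuousOn (fun z : Pt × Pt × (H →L[ℂ] H) => z.2.1)
        (XX d ×ˢ XX d ×ˢ (GM A : Set (H →L[ℂ] H))) :=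
      (continuous_fst.comp continuous_snd).continuousOn
    exact h1.clm_apply (h.1.comp h2 fun z hz => hz.2.1)
  · show T (g (ρ (flp k v))) = sg J k • T (g (ρ v))
    rw [h.2 v hv k, map_smul, map_smul]
  · show T ((-g) (ρ v)) = -T (g (ρ v))
    rw [neg_apply, map_neg]

lemma sg_even {E : Type} {f : (H →L[ℂ] H) → E} {g : H →L[ℂ] H} (h : f (-g) = f g)
    (J : Finset ℕ) (k : ℕ) : f (sg J k • g) = f g := by
  rcases sg_cases J k with h1 | h1
  · rw [h1, one_smul]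
  · rw [h1, neg_one_smul, h]

lemma sg_odd {f : (H →L[ℂ] H) → H} {g : H →L[ℂ] H} (h : f (-g) = -f g)
    (J : Finset ℕ) (k : ℕ) : f (sg J k • g) = sg J k • f g := by
  rcases sg_cases J k with h1 | h1
  · rw [h1, one_smul, one_smul]
  · rw [h1, neg_one_smul, neg_one_smul, h]

lemma sg_ES_even {m : ℕ} (hm : Even m) (k : ℕ) : sg (ES m) k = 1 := by
  have : k ∉ ES m := fun h => (mem_ES.1 h).1 hm
  rw [sg, if_neg this]

section FA

variable (hI : IseStmt H) (hD : D.OK A G)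

include hI hD

lemma map_cont (m i : ℕ) {f : Pt → Pt → (H →L[ℂ] H) → H}
    (hf : ContinuousOn (fun z : Pt × Pt × (H →L[ℂ] H) => f z.1 z.2.1 z.2.2)
      (XX G.d ×ˢ XX G.d ×ˢ (GM A : Set (H →L[ℂ] H)))) :
    ContinuousOn (fun z : Pt × Pt × (H →L[ℂ] H) =>
      f (Y1 D m z.1) (Y1 D i z.2.1) (z.2.2 * hh A G D i z.2.1))
      (XX (G.next A D).d ×ˢ XX (G.next A D).d ×ˢ (GM A : Set (H →L[ℂ] H))) := by
  have hmap : Continuous fun z : Pt × Pt × (H →L[ℂ] H) =>
      (Y1 D m z.1, Y1 D i z.2.1, z.2.2 * hh A G D i z.2.1) :=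
    ((Y1_cont D m).comp continuous_fst).prodMk
      (((Y1_cont D i).comp (continuous_fst.comp continuous_snd)).prodMk
        ((continuous_snd.comp continuous_snd).mul
          ((hh_cont hI i).comp (continuous_fst.comp continuous_snd))))
  refine hf.comp hmap.continuousOn fun z hz => ⟨Y1_mem hD hz.1 m, Y1_mem hD hz.2.1 i, ?_⟩
  exact (GM A).mul_mem hz.2.2 (hh_mem hI hz.2.1 i)

lemma Q1_even {I : Type} {l : I → ℕ} {J : I → Finset ℕ} {ρ : I → Pt → Pt → (H →L[ℂ] H) → H}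
    (h : Rows1 A G l J ρ) {m : ℕ} (hm : Even m) (i : ℕ) (T : H →L[ℂ] H) (r : I) :
    Q1 A (G.next A D).d (JH D c1 m J r)
      (fun w w' g => T (ρ r (Y1 D m w) (Y1 D i w') (g * hh A G D i w'))) := by
  refine ⟨T.continuous.comp_continuousOn (map_cont hI hD m i (h.cont r)), ?_, ?_, ?_⟩
  · intro u hu v hv g hg k
    have hgm : g * hh A G D i v ∈ GM A := (GM A).mul_mem hg (hh_mem hI hv i)
    show T (ρ r (Y1 D m (flp k u)) (Y1 D i v) (g * hh A G D i v)) = _
    rw [par_Y1 hD (f := fun u => ρ r u (Y1 D i v) (g * hh A G D i v))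
        (fun u' hu' j => h.par1 r u' hu' _ (Y1_mem hD hv i) _ hgm j) m hu k,
      sg_JH (A := A) (G := G) c1 cc1, sg_ES_even hm, one_mul, map_smul]
  · intro u hu v hv g hg k
    have hgm : g * hh A G D i v ∈ GM A := (GM A).mul_mem hg (hh_mem hI hv i)
    have hgm' : g * hh A G D i (flp k v) ∈ GM A :=
      (GM A).mul_mem hg (hh_mem hI (hI.flp _ v hv k) i)
    show T (ρ r (Y1 D m u) (Y1 D i (flp k v)) (g * hh A G D i (flp k v))) = _
    rw [inv_Y1 hD (f := fun v' => ρ r (Y1 D m u) v' (g * hh A G D i (flp k v)))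
        (fun v' hv' j => h.par2 r _ (Y1_mem hD hu m) v' hv' _ hgm' j) i hv k,
      hh_flp, mul_smul_comm, sg_even (f := fun g' => ρ r (Y1 D m u) (Y1 D i v) g')
        (h.par3 r _ (Y1_mem hD hu m) _ (Y1_mem hD hv i) _ hgm)]
  · intro u hu v hv g hg
    have hgm : g * hh A G D i v ∈ GM A := (GM A).mul_mem hg (hh_mem hI hv i)
    show T (ρ r (Y1 D m u) (Y1 D i v) (-g * hh A G D i v)) = _
    rw [neg_mul, h.par3 r _ (Y1_mem hD hu m) _ (Y1_mem hD hv i) _ hgm]

lemma Q2_even {I : Type} {l : I → ℕ} {J : I → Finset ℕ} {ρ : I → Pt → Pt → (H →L[ℂ] H) → H}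
    (h : Rows2 A G l J ρ) (m i : ℕ) (T : H →L[ℂ] H) (r : I) :
    Q2 A (G.next A D).d (JH D c1 i J r)
      (fun w w' g => T (ρ r (Y1 D m w) (Y1 D i w') (g * hh A G D i w'))) := by
  refine ⟨T.continuous.comp_continuousOn (map_cont hI hD m i (h.cont r)), ?_, ?_, ?_⟩
  · intro u hu v hv g hg k
    have hgm : g * hh A G D i v ∈ GM A := (GM A).mul_mem hg (hh_mem hI hv i)
    show T (ρ r (Y1 D m (flp k u)) (Y1 D i v) (g * hh A G D i v)) = _
    rw [inv_Y1 hD (f := fun u => ρ r u (Y1 D i v) (g * hh A G D i v))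
        (fun u' hu' j => h.par1 r u' hu' _ (Y1_mem hD hv i) _ hgm j) m hu k]
  · intro u hu v hv g hg k
    have hgm : g * hh A G D i v ∈ GM A := (GM A).mul_mem hg (hh_mem hI hv i)
    have hgm' : g * hh A G D i (flp k v) ∈ GM A :=
      (GM A).mul_mem hg (hh_mem hI (hI.flp _ v hv k) i)
    show T (ρ r (Y1 D m u) (Y1 D i (flp k v)) (g * hh A G D i (flp k v))) = _
    rw [par_Y1 hD (f := fun v' => ρ r (Y1 D m u) v' (g * hh A G D i (flp k v)))
        (fun v' hv' j => h.par2 r _ (Y1_mem hD hu m) v' hv' _ hgm' j) i hv k,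
      hh_flp, mul_smul_comm, sg_odd (f := fun g' => ρ r (Y1 D m u) (Y1 D i v) g')
        (h.par3 r _ (Y1_mem hD hu m) _ (Y1_mem hD hv i) _ hgm),
      sg_JH (A := A) (G := G) c1 cc1, map_smul, map_smul, smul_smul, mul_comm]
  · intro u hu v hv g hg
    have hgm : g * hh A G D i v ∈ GM A := (GM A).mul_mem hg (hh_mem hI hv i)
    show T (ρ r (Y1 D m u) (Y1 D i v) (-g * hh A G D i v)) = _
    rw [neg_mul, h.par3 r _ (Y1_mem hD hu m) _ (Y1_mem hD hv i) _ hgm, map_neg]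

/-- the rows at the time `0` -/
lemma zero_part {F : ℝ → Pt → Pt → (H →L[ℂ] H) → (H →L[ℂ] H)} (hE : IsE A G F)
    (hF : Good A G F) :
    ∃ (I : Type) (l : I → ℕ) (J : I → Finset ℕ) (ρ : I → Pt → H),
      Rows0 (G.next A D) l J ρ ∧ ∀ w ∈ XX (G.next A D).d, ∀ ξ : H,
        (∀ r, ⟪ρ r w, ξ⟫_ℂ = 0) → Phi A G D F 0 w w 1 ξ = 0 := by
  obtain ⟨I, l, J, ρ, h1, h2, h3⟩ := comb (V := Pt → H) (Ω := Pt × H) (G.next A D)
    (Q0 (G.next A D).d) (fun ρ ω => ⟪ρ ω.1, ω.2⟫_ℂ = 0)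
    (fun m ω => ω.1 ∈ XX (G.next A D).d →
      blkt A G D m F (D.t m) ω.1 ((star (A.R m)) ω.2) = 0) (fun m => by
        obtain ⟨I, l, J, ρ, k1, k2, k3⟩ := block hI hD hF m (hD.t_mem m)
        refine ⟨I, l, J, fun r w => A.R m (ρ r w), k1, fun r => Q0_map _ (k2 r), ?_⟩
        intro ω hω hw
        refine k3 _ hw _ fun r => ?_
        rw [inner_star']
        exact hω r)
  refine ⟨I, l, J, ρ, ⟨h1, fun r => (h2 r).1, fun r => (h2 r).2⟩, ?_⟩
  intro w hw ξ hξ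
  unfold Phi
  refine bs_zero _ ξ fun m => ?_
  have h4 := h3 (w, ξ) hξ m hw
  by_cases hm : Even m
  · simp only [if_pos hm]
    have e1 : 2 * (m / 2) = m := Nat.two_mul_div_two_of_even hm
    have h1m : (1 : H →L[ℂ] H) * hh A G D (m / 2) w ∈ GM A := by
      rw [one_mul]; exact hh_mem hI hw _
    have e2 : Aop A G D (m / 2) F 0 w w 1 = F 0 (Y1 D m w) (Y1 D m w) 1 := by
      unfold Aop
      rw [if_pos (by norm_num), e1, mul_zero,
        hE.bd0 _ (Y1_mem hD hw m) _ (Y1_mem hD hw _) _ h1m]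
    have e3 : blkt A G D m F (D.t m) w = F 0 (Y1 D m w) (Y1 D m w) 1 := by
      unfold blkt
      rw [hh_even hm, (hD.even m hm).2.1, (hD.even m hm).2.2, star_one, one_mul, mul_one,
        hE.bd0 _ (Y1_mem hD hw m) _ (Y2_mem hD hw m) _ (GM A).one_mem]
    rw [e2, ← e3]
    exact h4
  · simp only [if_neg hm]
    exact h4

/-- the rows at the times `s ≤ 1 / 2` -/
lemma low_part {F : ℝ → Pt → Pt → (H →L[ℂ] H) → (H →L[ℂ] H)} (hF : Good A G F) {s : ℝ}
    (hs0 : 0 ≤ s) (hs : s ≤ 1 / 2) :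
    ∃ (I1 I2 : Type) (l1 : I1 → ℕ) (J1 : I1 → Finset ℕ)
    (ρ1 : I1 → Pt → Pt → (H →L[ℂ] H) → H) (l2 : I2 → ℕ) (J2 : I2 → Finset ℕ)
    (ρ2 : I2 → Pt → Pt → (H →L[ℂ] H) → H), Rows1 A (G.next A D) l1 J1 ρ1 ∧
    Rows2 A (G.next A D) l2 J2 ρ2 ∧
    ∀ u ∈ XX (G.next A D).d, ∀ v ∈ XX (G.next A D).d, ∀ g ∈ GM A, ∀ ξ : H,
      (∀ r, ⟪ρ1 r u v g, ξ⟫_ℂ = 0) → (∀ r, ⟪ρ2 r u v g, ξ⟫_ℂ = 0) →
      Phi A G D F s u v g ξ = 0 := by
  obtain ⟨I1, I2, l1, J1, ρ1, l2, J2, ρ2, h1, h2, hker⟩ :=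
    hF.all (2 * s) ⟨by linarith, by linarith⟩
  obtain ⟨I, l, J, ρ, a1, a2, a3⟩ := comb (V := Pt → Pt → (H →L[ℂ] H) → H)
    (Ω := Pt × Pt × (H →L[ℂ] H) × H) (G.next A D)
    (Q1 A (G.next A D).d) (fun ρ ω => ⟪ρ ω.1 ω.2.1 ω.2.2.1, ω.2.2.2⟫_ℂ = 0)
    (fun m ω => ω.1 ∈ XX (G.next A D).d →
      if Even m then ∀ r : I1, ⟪ρ1 r (Y1 D m ω.1) (Y1 D (m / 2) ω.2.1)
        (ω.2.2.1 * hh A G D (m / 2) ω.2.1), (star (A.R m)) ω.2.2.2⟫_ℂ = 0
      else blkt A G D m F (D.t m) ω.1 ((star (A.R m)) ω.2.2.2) = 0) (fun m => by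
        by_cases hm : Even m
        · refine ⟨I1, lH D c1 m l1, JH D c1 m J1,
            fun r w w' g => A.R m (ρ1 r (Y1 D m w) (Y1 D (m / 2) w') (g * hh A G D (m / 2) w')),
            half_lead cc1 hD h1.lead m, fun r => Q1_even hI hD h1 hm (m / 2) _ r, ?_⟩
          intro ω hω hw
          rw [if_pos hm]
          intro r
          rw [inner_star']
          exact hω r
        · obtain ⟨I, l, J, ρ, k1, k2, k3⟩ := block hI hD hF m (hD.t_mem m)
          refine ⟨I, l, J, fun r w _ _ => A.R m (ρ r w), k1,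
            fun r => Q1_of_Q0 (Q0_map _ (k2 r)), ?_⟩
          intro ω hω hw
          rw [if_neg hm]
          refine k3 _ hw _ fun r => ?_
          rw [inner_star']
          exact hω r)
  obtain ⟨I', l', J', ρ', b1, b2, b3⟩ := comb (V := Pt → Pt → (H →L[ℂ] H) → H)
    (Ω := Pt × Pt × (H →L[ℂ] H) × H) (G.next A D)
    (Q2 A (G.next A D).d) (fun ρ ω => ⟪ρ ω.1 ω.2.1 ω.2.2.1, ω.2.2.2⟫_ℂ = 0)
    (fun i ω => ∀ r : I2, ⟪ρ2 r (Y1 D (2 * i) ω.1) (Y1 D i ω.2.1)
        (ω.2.2.1 * hh A G D i ω.2.1), (star (A.R (2 * i))) ω.2.2.2⟫_ℂ = 0) (fun i => by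
        refine ⟨I2, lH D c1 i l2, JH D c1 i J2,
          fun r w w' g => A.R (2 * i) (ρ2 r (Y1 D (2 * i) w) (Y1 D i w') (g * hh A G D i w')),
          half_lead cc1 hD h2.lead i, fun r => Q2_even hI hD h2 (2 * i) i _ r, ?_⟩
        intro ω hω r
        rw [inner_star']
        exact hω r)
  refine ⟨I, I', l, J, ρ, l', J', ρ', ⟨a1, fun r => (a2 r).1, fun r => (a2 r).2.1,
    fun r => (a2 r).2.2.1, fun r => (a2 r).2.2.2⟩, ⟨b1, fun r => (b2 r).1, fun r => (b2 r).2.1,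
    fun r => (b2 r).2.2.1, fun r => (b2 r).2.2.2⟩, ?_⟩
  intro w hw w' hw' g hg ξ hξ1 hξ2
  unfold Phi
  refine bs_zero _ ξ fun m => ?_
  have h4 := a3 (w, w', g, ξ) hξ1 m hw
  by_cases hm : Even m
  · simp only [if_pos hm] at h4 ⊢
    have e1 : 2 * (m / 2) = m := Nat.two_mul_div_two_of_even hm
    have h5 := b3 (w, w', g, ξ) hξ2 (m / 2)
    simp only [e1] at h5
    unfold Aop
    rw [if_pos hs, e1]
    exact hker _ (Y1_mem hD hw m) _ (Y1_mem hD hw' _) _
      ((GM A).mul_mem hg (hh_mem hI hw' _)) _ h4 h5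
  · simp only [if_neg hm] at h4 ⊢
    exact h4

/-- the rows at the times `s > 1 / 2` -/
lemma high_part {F : ℝ → Pt → Pt → (H →L[ℂ] H) → (H →L[ℂ] H)} (hF : Good A G F) {s : ℝ}
    (hs : 1 / 2 < s) (hs1 : s ≤ 1) :
    ∃ (I1 I2 : Type) (l1 : I1 → ℕ) (J1 : I1 → Finset ℕ)
    (ρ1 : I1 → Pt → Pt → (H →L[ℂ] H) → H) (l2 : I2 → ℕ) (J2 : I2 → Finset ℕ)
    (ρ2 : I2 → Pt → Pt → (H →L[ℂ] H) → H), Rows1 A (G.next A D) l1 J1 ρ1 ∧
    Rows2 A (G.next A D) l2 J2 ρ2 ∧
    ∀ u ∈ XX (G.next A D).d, ∀ v ∈ XX (G.next A D).d, ∀ g ∈ GM A, ∀ ξ : H,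
      (∀ r, ⟪ρ1 r u v g, ξ⟫_ℂ = 0) → (∀ r, ⟪ρ2 r u v g, ξ⟫_ℂ = 0) →
      Phi A G D F s u v g ξ = 0 := by
  obtain ⟨I0, l0, J0, ρ0, h0, hker0⟩ := hF.zero
  obtain ⟨I, l, J, ρ, a1, a2, a3⟩ := comb (V := Pt → Pt → (H →L[ℂ] H) → H)
    (Ω := Pt × Pt × (H →L[ℂ] H) × H) (G.next A D)
    (Q1 A (G.next A D).d) (fun ρ ω => ⟪ρ ω.1 ω.2.1 ω.2.2.1, ω.2.2.2⟫_ℂ = 0)
    (fun m ω => ω.1 ∈ XX (G.next A D).d →
      if Even m then F 0 (Y1 D m ω.1) (Y1 D m ω.1) 1
        ((star G.S1) ((star (A.R m)) ω.2.2.2)) = 0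
      else blkt A G D m F (D.t m) ω.1 ((star (A.R m)) ω.2.2.2) = 0) (fun m => by
        by_cases hm : Even m
        · refine ⟨I0, lH D c1 m l0, JH D c1 m J0,
            fun r w _ _ => A.R m (G.S1 (ρ0 r (Y1 D m w))),
            half_lead cc1 hD h0.lead m, fun r => Q1_of_Q0 (Q0_map _ (Q0_map _ ?_)), ?_⟩
          · refine ⟨(h0.cont r).comp (Y1_cont D m).continuousOn fun w hw => Y1_mem hD hw m, ?_⟩
            intro w hw k
            show ρ0 r (Y1 D m (flp k w)) = sg (JH D c1 m J0 r) k • ρ0 r (Y1 D m w)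
            rw [par_Y1 hD (f := ρ0 r) (h0.par r) m hw k, sg_JH (A := A) (G := G) c1 cc1,
              sg_ES_even hm, one_mul]
          · intro ω hω hw
            rw [if_pos hm]
            refine hker0 _ (Y1_mem hD hw m) _ fun r => ?_
            rw [inner_star', inner_star']
            exact hω r
        · obtain ⟨I, l, J, ρ, k1, k2, k3⟩ := block hI hD hF m (hD.t_mem m)
          refine ⟨I, l, J, fun r w _ _ => A.R m (ρ r w), k1,
            fun r => Q1_of_Q0 (Q0_map _ (k2 r)), ?_⟩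
          intro ω hω hw
          rw [if_neg hm]
          refine k3 _ hw _ fun r => ?_
          rw [inner_star']
          exact hω r)
  have hτ : ∀ i, (2 * s - 1) * D.t i ∈ Icc (0 : ℝ) 1 := by
    intro i
    obtain ⟨t0, t1⟩ := hD.t_mem i
    constructor
    · exact mul_nonneg (by linarith) t0
    · calc (2 * s - 1) * D.t i ≤ 1 * 1 := mul_le_mul (by linarith) t1 t0 (by norm_num)
        _ = 1 := by norm_num
  obtain ⟨I', l', J', ρ', b1, b2, b3⟩ := comb (V := Pt → Pt → (H →L[ℂ] H) → H)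
    (Ω := Pt × Pt × (H →L[ℂ] H) × H) (G.next A D)
    (Q2 A (G.next A D).d) (fun ρ ω => ⟪ρ ω.1 ω.2.1 ω.2.2.1, ω.2.2.2⟫_ℂ = 0)
    (fun i ω => ω.2.1 ∈ XX (G.next A D).d →
      blkt A G D i F ((2 * s - 1) * D.t i) ω.2.1
        ((star ω.2.2.1) ((star G.S2) ((star (A.R (2 * i))) ω.2.2.2))) = 0) (fun i => by
        obtain ⟨I, l, J, ρ, k1, k2, k3⟩ := block hI hD hF i (hτ i)
        refine ⟨I, l, J, fun r _ w' g => (A.R (2 * i) * G.S2) (g (ρ r w')), k1,
          fun r => Q2_of_Q0 _ (k2 r), ?_⟩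
        intro ω hω hw
        refine k3 _ hw _ fun r => ?_
        rw [inner_star', inner_star', inner_star']
        exact hω r)
  refine ⟨I, I', l, J, ρ, l', J', ρ', ⟨a1, fun r => (a2 r).1, fun r => (a2 r).2.1,
    fun r => (a2 r).2.2.1, fun r => (a2 r).2.2.2⟩, ⟨b1, fun r => (b2 r).1, fun r => (b2 r).2.1,
    fun r => (b2 r).2.2.1, fun r => (b2 r).2.2.2⟩, ?_⟩
  intro w hw w' hw' g hg ξ hξ1 hξ2
  unfold Phi
  refine bs_zero _ ξ fun m => ?_
  have h4 := a3 (w, w', g, ξ) hξ1 m hw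
  by_cases hm : Even m
  · simp only [if_pos hm] at h4 ⊢
    have e1 : 2 * (m / 2) = m := Nat.two_mul_div_two_of_even hm
    have h5 := b3 (w, w', g, ξ) hξ2 (m / 2) hw'
    simp only [e1] at h5
    unfold Aop
    rw [if_neg (not_le.2 hs), e1, add_apply, mul_ap, mul_ap, h4, map_zero, zero_add,
      mul_ap, mul_ap, mul_ap, h5, map_zero]
  · simp only [if_neg hm] at h4 ⊢
    exact h4

end FA

end

theorem rows (H : Type) [NormedAddCommGroup H] [InnerProductSpace ℂ H] [CompleteSpace H]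
    (hI : IseStmt H) : RowsStmt H := by
  intro A G D _ hD F hE hF
  refine ⟨zero_part hI hD hE hF, fun s hs => ?_⟩
  rcases le_or_gt s (1 / 2) with h | h
  · exact low_part hI hD hF hs.1 h
  · exact high_part hI hD hF h hs.2

end Pool.Agent.Y261.EL.Rw
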