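import Pool.Agent.Y269.EL.Stm2

/-!
# A separable C*-subalgebra with the properties `Core` (job EL-SEP)
-/

set_option autoImplicit false

namespace Pool.Agent.Y261.EL

open Pool.Agent.Y269.ElliottDef Pool.Agent.Y269.EL

section lists
variable {B : Type} [NormedRing B]

/-- `∑ a * d * b` over a list of pairs `(a, b)` -/
def S (d : B) (l : List (B × B)) : B := (l.map fun p => p.1 * d * p.2).sum

/-- the cost of a list of pairs -/
noncomputable def cost (l : List (B × B)) : ℝ := (l.map fun p => ‖p.1‖ * ‖p.2‖).sum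

lemma S_nil (d : B) : S d [] = 0 := rfl

lemma S_cons (d : B) (p : B × B) (l : List (B × B)) : S d (p :: l) = p.1 * d * p.2 + S d l := by
  simp [S]

lemma cost_nil : cost ([] : List (B × B)) = 0 := rfl

lemma cost_cons (p : B × B) (l : List (B × B)) : cost (p :: l) = ‖p.1‖ * ‖p.2‖ + cost l := by
  simp [cost]

lemma cost_nonneg (l : List (B × B)) : 0 ≤ cost l := by
  induction l with
  | nil => simp [cost_nil]
  | cons p l ih => rw [cost_cons]; positivity

lemma S_append (d : B) (l l' : List (B × B)) : S d (l ++ l') = S d l + S d l' := by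
  induction l with
  | nil => simp [S_nil]
  | cons p l ih => rw [List.cons_append, S_cons, S_cons, ih, add_assoc]

lemma S_left (c d : B) (l : List (B × B)) : S d (l.map fun p => (c * p.1, p.2)) = c * S d l := by
  induction l with
  | nil => simp [S_nil]
  | cons p l ih => rw [List.map_cons, S_cons, S_cons, ih, mul_add]; simp only [mul_assoc]

lemma S_right (c d : B) (l : List (B × B)) : S d (l.map fun p => (p.1, p.2 * c)) = S d l * c := by
  induction l with
  | nil => simp [S_nil]
  | cons p l ih => rw [List.map_cons, S_cons, S_cons, ih, add_mul]; simp only [mul_assoc]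

lemma cost_left (c : B) (l : List (B × B)) :
    cost (l.map fun p => (c * p.1, p.2)) ≤ ‖c‖ * cost l := by
  induction l with
  | nil => simp [cost_nil]
  | cons p l ih =>
    rw [List.map_cons, cost_cons, cost_cons, mul_add, ← mul_assoc]
    exact add_le_add (mul_le_mul_of_nonneg_right (norm_mul_le _ _) (norm_nonneg _)) ih

lemma S_sub_le (d a : B) (l : List (B × B)) : ‖S d l - S a l‖ ≤ cost l * ‖d - a‖ := by
  induction l with
  | nil => simp [S_nil, cost_nil]
  | cons p l ih =>
    rw [S_cons, S_cons, cost_cons, add_mul]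
    have h1 : p.1 * d * p.2 + S d l - (p.1 * a * p.2 + S a l) =
        p.1 * (d - a) * p.2 + (S d l - S a l) := by noncomm_ring
    rw [h1]
    refine (norm_add_le _ _).trans (add_le_add ?_ ih)
    calc ‖p.1 * (d - a) * p.2‖ ≤ ‖p.1 * (d - a)‖ * ‖p.2‖ := norm_mul_le _ _
      _ ≤ ‖p.1‖ * ‖d - a‖ * ‖p.2‖ := by gcongr; exact norm_mul_le _ _
      _ = ‖p.1‖ * ‖p.2‖ * ‖d - a‖ := by ring

lemma exists_list [IsSimpleRing B] {d : B} (hd : d ≠ 0) : ∃ l : List (B × B), S d l = 1 := by
  have htop : TwoSidedIdeal.span {d} = ⊤ := by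
    rcases eq_bot_or_eq_top (TwoSidedIdeal.span {d}) with h | h
    · exfalso
      apply hd
      have : d ∈ TwoSidedIdeal.span {d} := TwoSidedIdeal.subset_span (by simp)
      rw [h] at this
      simpa using this
    · exact h
  have h1 : (1 : B) ∈ TwoSidedIdeal.span {d} := by rw [htop]; trivial
  refine TwoSidedIdeal.span_induction (p := fun z _ => ∃ l : List (B × B), S d l = z)
    ?_ ?_ ?_ ?_ ?_ ?_ h1
  · intro z hz
    have : z = d := by simpa using hz
    subst this
    exact ⟨[(1, 1)], by simp [S]⟩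
  · exact ⟨[], rfl⟩
  · rintro x y _ _ ⟨l, hl⟩ ⟨l', hl'⟩
    exact ⟨l ++ l', by rw [S_append, hl, hl']⟩
  · rintro x _ ⟨l, hl⟩
    exact ⟨l.map fun p => (-1 * p.1, p.2), by rw [S_left, hl]; simp⟩
  · rintro c x _ ⟨l, hl⟩
    exact ⟨l.map fun p => (c * p.1, p.2), by rw [S_left, hl]⟩
  · rintro c x _ ⟨l, hl⟩
    exact ⟨l.map fun p => (p.1, p.2 * c), by rw [S_right, hl]⟩

lemma robust [NormOneClass B] [CompleteSpace B] {a d : B} {l : List (B × B)} {m : ℝ}
    (h : S a l = 1) (hc : cost l ≤ m) (hd : m * ‖d - a‖ ≤ 1 / 4) :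
    ∃ l' : List (B × B), S d l' = 1 ∧ cost l' ≤ 2 * m := by
  have hm : 0 ≤ m := (cost_nonneg l).trans hc
  have h1 : ‖1 - S d l‖ ≤ 1 / 4 := by
    rw [norm_sub_rev, ← h]
    exact (S_sub_le d a l).trans ((mul_le_mul_of_nonneg_right hc (norm_nonneg _)).trans hd)
  have hu : IsUnit (S d l) := by
    have := isUnit_one_sub_of_norm_lt_one (x := 1 - S d l) (lt_of_le_of_lt h1 (by norm_num))
    simpa using this
  obtain ⟨u, hu⟩ := hu
  set c : B := (↑u⁻¹ : B) with hcdef
  have hcu : c * S d l = 1 := by rw [← hu]; simp [hcdef]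
  have hcn : ‖c‖ ≤ 2 := by
    have h2 : c = 1 + c * (1 - S d l) := by rw [mul_sub, hcu]; simp
    have h3 : ‖c‖ ≤ 1 + ‖c‖ * (1 / 4) := by
      calc ‖c‖ = ‖1 + c * (1 - S d l)‖ := by rw [← h2]
        _ ≤ ‖(1 : B)‖ + ‖c * (1 - S d l)‖ := norm_add_le _ _
        _ ≤ 1 + ‖c‖ * (1 / 4) := by
            rw [norm_one]
            gcongr
            exact (norm_mul_le _ _).trans (by gcongr)
    linarith [norm_nonneg c]
  refine ⟨l.map fun p => (c * p.1, p.2), by rw [S_left, hcu], ?_⟩
  exact (cost_left c l).trans (mul_le_mul hcn hc (cost_nonneg l) (by norm_num))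

end lists

section proj
variable {B : Type} [CStarAlgebra B]

/-- close projections are equivalent -/
lemma polar {p q : B} (hp : IsStarProjection p) (hq : IsStarProjection q) (h : ‖p - q‖ < 1) :
    ∃ w : B, star w * w = p ∧ w * star w = q := by
  rcases subsingleton_or_nontrivial B with hB | hB
  · exact ⟨0, Subsingleton.elim _ _, Subsingleton.elim _ _⟩
  have pp : p * p = p := hp.isIdempotentElem
  have qq : q * q = q := hq.isIdempotentElem
  have ps : star p = p := hp.isSelfAdjoint
  have qs : star q = q := hq.isSelfAdjoint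
  set z : B := q * p + (1 - q) * (1 - p) with hz
  have hz1 : 1 - z = -((2 * q - 1) * (p - q)) := by
    rw [hz]
    have : q * q = q := qq
    noncomm_ring
    rw [this]
    abel
  have h2q : ‖2 * q - 1‖ ≤ 1 := by
    have h3 : star (2 * q - 1) * (2 * q - 1) = 1 := by
      have h4 : star (2 * q - 1) = 2 * q - 1 := by
        rw [star_sub, star_mul, qs, star_one]
        simp only [star_ofNat]
        noncomm_ring
      rw [h4]
      noncomm_ring
      rw [qq]
      abel
    have h5 : ‖2 * q - 1‖ * ‖2 * q - 1‖ = 1 := by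
      rw [← CStarRing.norm_star_mul_self, h3, CStarRing.norm_one]
    nlinarith [norm_nonneg (2 * q - 1)]
  have hzn : ‖1 - z‖ < 1 := by
    rw [hz1, norm_neg]
    calc ‖(2 * q - 1) * (p - q)‖ ≤ ‖2 * q - 1‖ * ‖p - q‖ := norm_mul_le _ _
      _ ≤ 1 * ‖p - q‖ := by gcongr
      _ < 1 := by rwa [one_mul]
  have hzu : IsUnit z := by
    have := isUnit_one_sub_of_norm_lt_one hzn
    simpa using this
  have hzp : z * p = q * z := by
    rw [hz]
    have e1 : (q * p + (1 - q) * (1 - p)) * p = q * (p * p) + (1 - q) * (p - p * p) := by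
      noncomm_ring
    have e2 : q * (q * p + (1 - q) * (1 - p)) = (q * q) * p + (q - q * q) * (1 - p) := by
      noncomm_ring
    rw [e1, e2, pp, qq]
    simp
  have hzp' : p * star z = star z * q := by
    have := congrArg star hzp
    rw [star_mul, star_mul, ps, qs] at this
    exact this
  set k : B := star z * z with hk
  have hksa : IsSelfAdjoint k := IsSelfAdjoint.star_mul_self z
  have hkp : Commute k p := by
    show star z * z * p = p * (star z * z)
    rw [mul_assoc, hzp, ← mul_assoc, ← hzp', mul_assoc]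
  set s : B := cfc Real.sqrt k with hs
  have hss : s * s = k := by
    rw [hs, ← cfc_mul Real.sqrt Real.sqrt k]
    have h6 : cfc (fun x => Real.sqrt x * Real.sqrt x) k = cfc (fun x : ℝ => x) k := by
      refine cfc_congr fun x hx => ?_
      exact Real.mul_self_sqrt (spectrum_star_mul_self_nonneg x hx)
    rw [h6, cfc_id' ℝ k]
  have hssa : star s = s := (cfc_predicate Real.sqrt k : IsSelfAdjoint s)
  have hsp : Commute s p := Commute.cfc_real hkp Real.sqrt
  have hku : IsUnit k := hzu.star.mul hzu
  have hsu : IsUnit s := by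
    rw [← hss] at hku
    exact ((Commute.refl s).isUnit_mul_iff.1 hku).1
  obtain ⟨S', hS'⟩ := hsu
  set t : B := (↑S'⁻¹ : B) with ht
  have hts : t * s = 1 := by rw [← hS', ht]; simp
  have hst : s * t = 1 := by rw [← hS', ht]; simp
  have htsa : star t = t := by
    have h7 : star t * s = 1 := by
      have := congrArg star hst
      rwa [star_mul, hssa, star_one] at this
    calc star t = star t * (s * t) := by rw [hst, mul_one]
      _ = (star t * s) * t := by rw [mul_assoc]
      _ = t := by rw [h7, one_mul]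
  have htp : t * p = p * t := by
    have h8 : s * p = p * s := hsp
    calc t * p = t * p * (s * t) := by rw [hst, mul_one]
      _ = t * (p * s) * t := by noncomm_ring
      _ = t * (s * p) * t := by rw [h8]
      _ = (t * s) * p * t := by noncomm_ring
      _ = p * t := by rw [hts, one_mul]
  set u : B := z * t with hu
  have huu : star u * u = 1 := by
    rw [hu, star_mul, htsa]
    calc t * star z * (z * t) = t * (star z * z) * t := by noncomm_ring
      _ = t * (s * s) * t := by rw [hss]
      _ = (t * s) * (s * t) := by noncomm_ring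
      _ = 1 := by rw [hts, hst, one_mul]
  have huU : IsUnit u := hzu.mul (by rw [ht]; exact S'⁻¹.isUnit)
  have huu' : u * star u = 1 := by
    obtain ⟨U, hU⟩ := huU
    have h9 : star u = (↑U⁻¹ : B) := by
      calc star u = star u * (u * ↑U⁻¹) := by rw [← hU, Units.mul_inv, mul_one]
        _ = (star u * u) * ↑U⁻¹ := (mul_assoc _ _ _).symm
        _ = ↑U⁻¹ := by rw [huu, one_mul]
    rw [h9, ← hU]
    simp
  have hup : u * p = q * u := by
    rw [hu]
    calc z * t * p = z * (t * p) := by rw [mul_assoc]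
      _ = z * p * t := by rw [htp, mul_assoc]
      _ = q * (z * t) := by rw [hzp, mul_assoc]
  refine ⟨u * p, ?_, ?_⟩
  · rw [star_mul, ps]
    calc p * star u * (u * p) = p * (star u * u) * p := by noncomm_ring
      _ = p := by rw [huu, mul_one, pp]
  · rw [hup, star_mul, qs]
    calc q * u * (star u * q) = q * (u * star u) * q := by noncomm_ring
      _ = q := by rw [huu', mul_one, qq]

/-- infinite projections: transfer along an equivalence -/
lemma transfer {p q v w : B} (hp : IsStarProjection p) (hq : IsStarProjection q)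
    (h1 : star w * w = p) (h2 : w * star w = q) (h3 : star v * v = q)
    (h4 : q * (v * star v) = v * star v) (h5 : v * star v ≠ q) : InfiniteProj p := by
  have pp : p * p = p := hp.isIdempotentElem
  have qq : q * q = q := hq.isIdempotentElem
  have ps : star p = p := hp.isSelfAdjoint
  have qs : star q = q := hq.isSelfAdjoint
  have hqv : q * v = v := by
    have h6 : (v - q * v) * star (v - q * v) = 0 := by
      rw [star_sub, star_mul, qs]
      have : (v - q * v) * (star v - star v * q) =
          (v * star v - q * (v * star v)) * (1 - q) := by noncomm_ring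
      rw [this, h4, sub_self, zero_mul]
    have h7 := (CStarRing.mul_star_self_eq_zero_iff _).1 h6
    exact (sub_eq_zero.1 h7).symm
  have hvq : v * q = v := by
    have h6 : star (v - v * q) * (v - v * q) = 0 := by
      rw [star_sub, star_mul, qs]
      have : (star v - q * star v) * (v - v * q) =
          star v * v - (star v * v) * q - q * (star v * v) + q * (star v * v) * q := by noncomm_ring
      rw [this, h3, qq, qq]
      simp
    have h7 := (CStarRing.star_mul_self_eq_zero_iff _).1 h6
    exact (sub_eq_zero.1 h7).symm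
  have e1 : star (star w * v * w) = star w * star v * w := by
    rw [star_mul, star_mul, star_star, mul_assoc]
  have e2 : (star w * v * w) * star (star w * v * w) = star w * (v * star v) * w := by
    rw [e1]
    calc star w * v * w * (star w * star v * w) = star w * v * (w * star w) * star v * w := by
          noncomm_ring
      _ = star w * (v * q) * star v * w := by rw [h2]; noncomm_ring
      _ = star w * (v * star v) * w := by rw [hvq]; noncomm_ring
  refine ⟨star w * v * w, ?_, ?_, ?_⟩
  · rw [e1]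
    calc star w * star v * w * (star w * v * w) = star w * star v * ((w * star w) * v) * w := by
          noncomm_ring
      _ = star w * (star v * v) * w := by rw [h2, hqv]; noncomm_ring
      _ = (star w * w) * (star w * w) := by rw [h3, ← h2]; noncomm_ring
      _ = p := by rw [h1, pp]
  · rw [e2, ← h1]
    calc star w * w * (star w * (v * star v) * w) = star w * ((w * star w) * (v * star v)) * w := by
          noncomm_ring
      _ = star w * (v * star v) * w := by rw [h2, h4]
  · rw [e2]
    intro h6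
    apply h5
    have h7 : w * (star w * (v * star v) * w) * star w = w * p * star w := by rw [h6]
    have h8 : w * (star w * (v * star v) * w) * star w =
        (w * star w) * (v * star v) * (w * star w) := by noncomm_ring
    have h9 : w * p * star w = (w * star w) * (w * star w) := by rw [← h1]; noncomm_ring
    have h10 : (v * star v) * q = v * star v := by
      have := congrArg star h4
      simpa [star_mul, qs, mul_assoc] using this
    rw [h8, h9, h2, h4, h10, qq] at h7
    exact h7

end proj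

section close
variable {L : Type} [CStarAlgebra L]

/-- partial isometries which show that a projection is infinite -/
def Good (v : L) : Prop := IsStarProjection (star v * v) ∧
  star v * v * (v * star v) = v * star v ∧ v * star v ≠ star v * v

/-- the witnesses for `d` -/
def R (d : L) : Set L :=
  (⋃ n : ℕ, {y | ∃ h : ∃ l : List (L × L), S d l = 1 ∧ cost l ≤ n, ∃ p ∈ h.choose, y = p.1 ∨ y = p.2}) ∪
    {y | ∃ h : ∃ v : L, Good v ∧ ‖star v * v - d‖ < 1 / 4, y = h.choose}

lemma R_countable (d : L) : (R d).Countable := by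
  refine Set.Countable.union (Set.countable_iUnion fun n => ?_) ?_
  · by_cases h : ∃ l : List (L × L), S d l = 1 ∧ cost l ≤ n
    · have : {y | ∃ h : ∃ l : List (L × L), S d l = 1 ∧ cost l ≤ n, ∃ p ∈ h.choose, y = p.1 ∨ y = p.2} ⊆
          {y | y ∈ (h.choose.map Prod.fst) ++ (h.choose.map Prod.snd)} := by
        rintro y ⟨_, p, hp, h1 | h1⟩
        · exact List.mem_append_left _ (List.mem_map.2 ⟨p, hp, h1.symm⟩)
        · exact List.mem_append_right _ (List.mem_map.2 ⟨p, hp, h1.symm⟩)
      exact ((List.finite_toSet _).subset this).countable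
    · have : {y | ∃ h : ∃ l : List (L × L), S d l = 1 ∧ cost l ≤ n, ∃ p ∈ h.choose, y = p.1 ∨ y = p.2} = ∅ := by
        ext y
        simp only [Set.mem_ofPred_eq, Set.mem_empty_iff_false, iff_false]
        rintro ⟨h', _⟩
        exact h h'
      rw [this]
      exact Set.countable_empty
  · by_cases h : ∃ v : L, Good v ∧ ‖star v * v - d‖ < 1 / 4
    · refine (Set.countable_singleton h.choose).mono ?_
      rintro y ⟨_, rfl⟩
      exact rfl
    · refine Set.countable_empty.mono ?_
      rintro y ⟨h', _⟩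
      exact absurd h' h

lemma R_list {d : L} {n : ℕ} (h : ∃ l : List (L × L), S d l = 1 ∧ cost l ≤ n) :
    ∃ l : List (L × L), S d l = 1 ∧ cost l ≤ n ∧ ∀ p ∈ l, p.1 ∈ R d ∧ p.2 ∈ R d := by
  refine ⟨h.choose, h.choose_spec.1, h.choose_spec.2, fun p hp => ⟨?_, ?_⟩⟩
  · exact Or.inl (Set.mem_iUnion.2 ⟨n, h, p, hp, Or.inl rfl⟩)
  · exact Or.inl (Set.mem_iUnion.2 ⟨n, h, p, hp, Or.inr rfl⟩)

lemma R_good {d : L} (h : ∃ v : L, Good v ∧ ‖star v * v - d‖ < 1 / 4) :
    ∃ v : L, Good v ∧ ‖star v * v - d‖ < 1 / 4 ∧ v ∈ R d :=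
  ⟨h.choose, h.choose_spec.1, h.choose_spec.2, Or.inr ⟨h, rfl⟩⟩

/-- closing off -/
lemma closing (x : L) (W : L → Set L) (hW : ∀ d, (W d).Countable) :
    ∃ (A : StarSubalgebra ℂ L) (D : Set L), IsClosed (A : Set L) ∧ D.Countable ∧ x ∈ D ∧
      (A : Set L) = closure D ∧ ∀ d ∈ D, W d ⊆ D := by
  obtain ⟨Q, hQc, hQd⟩ := TopologicalSpace.exists_countable_dense ℂ
  let step : Set L → Set L := fun E => E ∪ (⋃ d ∈ E, W d) ∪ Set.image2 (· + ·) E E ∪
    Set.image2 (· * ·) E E ∪ star '' E ∪ Set.image2 (· • ·) Q E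
  have hstepc : ∀ E : Set L, E.Countable → (step E).Countable := by
    intro E hE
    exact ((((hE.union (hE.biUnion fun d _ => hW d)).union (hE.image2 hE _)).union
      (hE.image2 hE _)).union (hE.image _)).union (hQc.image2 hE _)
  let F : ℕ → Set L := fun n => step^[n] {x, 1}
  have hF0 : F 0 = {x, 1} := rfl
  have hFs : ∀ n, F (n + 1) = step (F n) := fun n => Function.iterate_succ_apply' _ _ _
  have hFc : ∀ n, (F n).Countable := by
    intro n
    induction n with
    | zero => rw [hF0]; exact (Set.countable_singleton 1).insert x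
    | succ n ih => rw [hFs]; exact hstepc _ ih
  have hmono : Monotone F := by
    refine monotone_nat_of_le_succ fun n => ?_
    rw [hFs]
    intro y hy
    exact Or.inl (Or.inl (Or.inl (Or.inl (Or.inl hy))))
  let D : Set L := ⋃ n, F n
  have hDmem : ∀ y, y ∈ D ↔ ∃ n, y ∈ F n := fun y => Set.mem_iUnion
  have hDc : D.Countable := Set.countable_iUnion hFc
  have hxD : x ∈ D := (hDmem x).2 ⟨0, by rw [hF0]; simp⟩
  have h1D : (1 : L) ∈ D := (hDmem 1).2 ⟨0, by rw [hF0]; simp⟩
  have hadd : ∀ y ∈ D, ∀ z ∈ D, y + z ∈ D := by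
    intro y hy z hz
    obtain ⟨n, hn⟩ := (hDmem y).1 hy
    obtain ⟨m, hm⟩ := (hDmem z).1 hz
    refine (hDmem _).2 ⟨max n m + 1, ?_⟩
    rw [hFs]
    exact Or.inl (Or.inl (Or.inl (Or.inr ⟨y, hmono (le_max_left _ _) hn, z,
      hmono (le_max_right _ _) hm, rfl⟩)))
  have hmul : ∀ y ∈ D, ∀ z ∈ D, y * z ∈ D := by
    intro y hy z hz
    obtain ⟨n, hn⟩ := (hDmem y).1 hy
    obtain ⟨m, hm⟩ := (hDmem z).1 hz
    refine (hDmem _).2 ⟨max n m + 1, ?_⟩
    rw [hFs]
    exact Or.inl (Or.inl (Or.inr ⟨y, hmono (le_max_left _ _) hn, z,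
      hmono (le_max_right _ _) hm, rfl⟩))
  have hstar : ∀ y ∈ D, star y ∈ D := by
    intro y hy
    obtain ⟨n, hn⟩ := (hDmem y).1 hy
    refine (hDmem _).2 ⟨n + 1, ?_⟩
    rw [hFs]
    exact Or.inl (Or.inr ⟨y, hn, rfl⟩)
  have hsmul : ∀ c ∈ Q, ∀ y ∈ D, c • y ∈ D := by
    intro c hc y hy
    obtain ⟨n, hn⟩ := (hDmem y).1 hy
    refine (hDmem _).2 ⟨n + 1, ?_⟩
    rw [hFs]
    exact Or.inr ⟨c, hc, y, hn, rfl⟩
  have hWD : ∀ d ∈ D, W d ⊆ D := by
    intro d hd y hy
    obtain ⟨n, hn⟩ := (hDmem d).1 hd
    refine (hDmem _).2 ⟨n + 1, ?_⟩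
    rw [hFs]
    exact Or.inl (Or.inl (Or.inl (Or.inl (Or.inr (Set.mem_biUnion hn hy)))))
  let A : StarSubalgebra ℂ L :=
    { carrier := closure D
      mul_mem' := fun {a b} ha hb => map_mem_closure₂ continuous_mul ha hb hmul
      add_mem' := fun {a b} ha hb => map_mem_closure₂ continuous_add ha hb hadd
      algebraMap_mem' := fun c => by
        rw [Algebra.algebraMap_eq_smul_one]
        exact map_mem_closure₂ (f := fun (c : ℂ) (y : L) => c • y) continuous_smul
          (hQd c) (subset_closure h1D) hsmul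
      star_mem' := fun {a} ha => map_mem_closure continuous_star ha hstar }
  exact ⟨A, D, isClosed_closure, hDc, hxD, rfl, hWD⟩

end close

/-- the properties of a subalgebra which is closed under the witnesses -/
theorem core_of {L B : Type} [CStarAlgebra L] [CStarAlgebra B] (hL : IsSimpleRing L)
    (hP : ∀ p : L, IsStarProjection p → p ≠ 0 → InfiniteProj p) (j : B →⋆ₐ[ℂ] L)
    (hj : ∀ b, ‖j b‖ = ‖b‖) (x : B) (hx0 : x ≠ 0)
    (hx : ∀ y : L, 1 ≤ ‖1 - y * (star (j x) * j x) * star y‖) (D : Set L)
    (hD : ∀ b : B, ∀ ε : ℝ, 0 < ε → ∃ d ∈ D, ‖d - j b‖ < ε)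
    (hR : ∀ d ∈ D, ∀ y ∈ R d, ∃ b : B, j b = y) : Core B := by
  have hinj : Function.Injective j := by
    intro a b hab
    have : ‖a - b‖ = 0 := by rw [← hj, map_sub, hab, sub_self, norm_zero]
    exact sub_eq_zero.1 (norm_eq_zero.1 this)
  have hj0 : ∀ b : B, j b = 0 → b = 0 := fun b hb => hinj (by rw [hb, map_zero])
  have hnt : Nontrivial B := ⟨x, 0, hx0⟩
  have hntL : Nontrivial L := ⟨j x, 0, fun h => hx0 (hj0 x h)⟩
  refine ⟨?_, ?_, x, hx0, fun y => ?_⟩
  · refine ⟨⟨fun I => ?_⟩⟩
    by_cases hI : I = ⊥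
    · exact Or.inl hI
    right
    obtain ⟨a, haI, ha0⟩ : ∃ a ∈ I, a ≠ 0 := by
      by_contra hcon
      push Not at hcon
      apply hI
      rw [eq_bot_iff]
      intro y hy
      rw [hcon y hy]
      exact zero_mem _
    have hja : j a ≠ 0 := fun h => ha0 (hj0 a h)
    obtain ⟨l, hl⟩ := exists_list hja
    obtain ⟨m, hm⟩ := exists_nat_ge (max (cost l) 1)
    have hm1 : (1 : ℝ) ≤ m := (le_max_right _ _).trans hm
    obtain ⟨d, hdD, hd⟩ := hD a (1 / (4 * m)) (by positivity)
    have hmd : (m : ℝ) * ‖d - j a‖ ≤ 1 / 4 := by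
      calc (m : ℝ) * ‖d - j a‖ ≤ m * (1 / (4 * m)) := by gcongr
        _ = 1 / 4 := by field_simp
    obtain ⟨l1, hl1, hc1⟩ := robust hl ((le_max_left _ _).trans hm) hmd
    obtain ⟨l2, hl2, hc2, hmem⟩ := R_list (d := d) (n := 2 * m) ⟨l1, hl1, by push_cast; exact hc1⟩
    -- pull the list back to `B`
    have hpull : ∀ l : List (L × L), (∀ p ∈ l, p.1 ∈ R d ∧ p.2 ∈ R d) →
        ∃ c ∈ I, j c = S (j a) l := by
      intro l
      induction l with
      | nil => intro _; exact ⟨0, I.zero_mem, by simp [S_nil]⟩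
      | cons p l ih =>
        intro hp
        obtain ⟨c, hcI, hc⟩ := ih fun q hq => hp q (List.mem_cons_of_mem _ hq)
        obtain ⟨b1, hb1⟩ := hR d hdD _ (hp p (List.mem_cons_self ..)).1
        obtain ⟨b2, hb2⟩ := hR d hdD _ (hp p (List.mem_cons_self ..)).2
        refine ⟨b1 * a * b2 + c, I.add_mem (I.mul_mem_right _ _ (I.mul_mem_left _ _ haI)) hcI, ?_⟩
        rw [map_add, map_mul, map_mul, hb1, hb2, hc, S_cons]
    obtain ⟨c, hcI, hc⟩ := hpull l2 hmem
    have hc3 : ‖1 - c‖ < 1 := by
      rw [← hj, map_sub, map_one, hc, ← hl2]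
      refine lt_of_le_of_lt (S_sub_le d (j a) l2) ?_
      have h1 : cost l2 * ‖d - j a‖ ≤ 2 * (m * ‖d - j a‖) := by
        have := mul_le_mul_of_nonneg_right hc2 (norm_nonneg (d - j a))
        push_cast at this
        linarith
      linarith
    have hu : IsUnit c := by
      have := isUnit_one_sub_of_norm_lt_one hc3
      simpa using this
    obtain ⟨u, hu⟩ := hu
    rw [eq_top_iff]
    intro y _
    have h2 : y = y * ↑u⁻¹ * c := by rw [← hu]; simp
    rw [h2]
    exact I.mul_mem_left _ _ hcI
  · intro p hp hp0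
    have hjp : IsStarProjection (j p) := by
      refine ⟨?_, ?_⟩
      · show j p * j p = j p
        rw [← map_mul, hp.isIdempotentElem]
      · show star (j p) = j p
        rw [← map_star, hp.isSelfAdjoint]
    obtain ⟨v0, h1, h2, h3⟩ := hP (j p) hjp (fun h => hp0 (hj0 p h))
    obtain ⟨d, hdD, hd⟩ := hD p (1 / 4) (by norm_num)
    obtain ⟨v, ⟨hv1, hv2, hv3⟩, hv4, hv5⟩ := R_good (d := d) ⟨v0, ⟨by rw [h1]; exact hjp,
      by rw [h1]; exact h2, by rw [h1]; exact h3⟩, by rw [h1, norm_sub_rev]; exact hd⟩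
    obtain ⟨b, hb⟩ := hR d hdD v hv5
    have hq : IsStarProjection (star b * b) := by
      refine ⟨hinj ?_, ?_⟩
      · have := hv1.isIdempotentElem
        rw [← hb, ← map_star, ← map_mul] at this
        show j (star b * b * (star b * b)) = j (star b * b)
        rw [map_mul]
        exact this
      · exact IsSelfAdjoint.star_mul_self b
    have hpq : ‖p - star b * b‖ < 1 := by
      rw [← hj, map_sub, map_mul, map_star, hb]
      calc ‖j p - star v * v‖ = ‖-((star v * v - d) + (d - j p))‖ := by congr 1; abel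
        _ ≤ ‖star v * v - d‖ + ‖d - j p‖ := by rw [norm_neg]; exact norm_add_le _ _
        _ < 1 := by linarith
    obtain ⟨w, hw1, hw2⟩ := polar hp hq hpq
    refine transfer hp hq hw1 hw2 rfl (hinj ?_) ?_
    · simp only [map_mul, map_star, hb]
      exact hv2
    · intro h
      apply hv3
      have := congrArg j h
      simpa only [map_mul, map_star, hb] using this
  · have h1 := hx (j y)
    have h2 : (1 : L) - j y * (star (j x) * j x) * star (j y) =
        j (1 - y * (star x * x) * star y) := by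
      simp only [map_sub, map_one, map_mul, map_star]
    rw [h2, hj] at h1
    exact h1

theorem sep : SepStmt := by
  intro L _ hL
  obtain ⟨hs, hP, x, hx0, hx⟩ := hL
  obtain ⟨A, D, hcl, hDc, hxD, hAD, hWD⟩ := closing x R R_countable
  let I : CStarAlgebra A := StarSubalgebra.cstarAlgebra A (h_closed := hcl)
  have hDA : D ⊆ (A : Set L) := by rw [hAD]; exact subset_closure
  refine ⟨A, I, ?_, ?_⟩
  · have h1 : TopologicalSpace.IsSeparable (A : Set L) := by
      rw [hAD]; exact hDc.isSeparable.closure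
    exact h1.separableSpace
  · refine core_of hs hP A.subtype (fun b => rfl) ⟨x, hDA hxD⟩ (fun h => hx0 ?_) hx D ?_ ?_
    · exact congrArg Subtype.val h
    · intro b ε hε
      have hb : (b : L) ∈ closure D := by rw [← hAD]; exact b.2
      obtain ⟨d, hd, hd'⟩ := Metric.mem_closure_iff.1 hb ε hε
      exact ⟨d, hd, by rw [dist_comm, dist_eq_norm] at hd'; exact hd'⟩
    · intro d hd y hy
      exact ⟨⟨y, hDA (hWD d hd hy)⟩, rfl⟩

end Pool.Agent.Y261.EL
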